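import Pool.Agent.Lib_helper99.FGA.WantedE

/-! FGA blocks A18bE, A18b (helper16): from the von Mangoldt function to the primes `> √N` -/

set_option autoImplicit false

namespace Pool.Agent.FGA

open Finset Pool.Agent.Var35 Pool.Agent.Var73 Pool.Agent.PV Pool.Agent.FGP
open scoped ArithmeticFunction ArithmeticFunction.Moebius

/-- the coefficients of the difference -/
noncomputable def a18b_b (N n : ℕ) : ℝ := ArithmeticFunction.vonMangoldt n - aS N n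

theorem a18b_split (N : ℕ) (t : ℝ) :
    HC.S HC.Lam N t = Ps N t + Bs (fun n => ((a18b_b N n : ℝ) : ℂ)) N t := by
  rw [HC.S, Ps, Bs, Bs, ← Finset.sum_add_distrib]
  apply Finset.sum_congr rfl
  intro n _
  show ((HC.Lam n : ℝ) : ℂ) * e (n * t) = ((aS N n : ℝ) : ℂ) * e (n * t) +
    ((a18b_b N n : ℝ) : ℂ) * e (n * t)
  have h : ((a18b_b N n : ℝ) : ℂ) = ((HC.Lam n : ℝ) : ℂ) - ((aS N n : ℝ) : ℂ) := by
    rw [a18b_b, Complex.ofReal_sub]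
  rw [h]
  ring

theorem a18b_pt (x y : ℂ) (δ : ℝ) (hδ : 0 < δ) :
    |‖x + y‖ ^ 2 - ‖x‖ ^ 2| ≤ δ * ‖x‖ ^ 2 + (1 + 1 / δ) * ‖y‖ ^ 2 := by
  have h1 : ‖x + y‖ ≤ ‖x‖ + ‖y‖ := norm_add_le x y
  have h2 : ‖x‖ ≤ ‖x + y‖ + ‖y‖ := by
    have h := norm_sub_le (x + y) y
    rwa [add_sub_cancel_right] at h
  have h0x := norm_nonneg x
  have h0y := norm_nonneg y
  have h0 := norm_nonneg (x + y)
  have h3 : 0 ≤ (δ * ‖x‖ - ‖y‖) ^ 2 / δ := div_nonneg (sq_nonneg _) hδ.le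
  have h4 : (δ * ‖x‖ - ‖y‖) ^ 2 / δ = δ * ‖x‖ ^ 2 - 2 * ‖x‖ * ‖y‖ + 1 / δ * ‖y‖ ^ 2 := by
    field_simp
    ring
  have h5 : |‖x + y‖ ^ 2 - ‖x‖ ^ 2| ≤ ‖y‖ * (2 * ‖x‖ + ‖y‖) := by
    have e1 : ‖x + y‖ ^ 2 - ‖x‖ ^ 2 = (‖x + y‖ - ‖x‖) * (‖x + y‖ + ‖x‖) := by ring
    rw [e1, abs_mul]
    apply mul_le_mul
    · rw [abs_le]
      constructor <;> linarith
    · rw [abs_of_nonneg (by linarith)]
      linarith
    · exact abs_nonneg _
    · exact h0y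
  have h6 : ‖y‖ * (2 * ‖x‖ + ‖y‖) = 2 * ‖x‖ * ‖y‖ + ‖y‖ ^ 2 := by ring
  linarith

/-- Parseval for real coefficients -/
theorem a18b_pars (b : ℕ → ℝ) (N Q : ℕ) (hQ : 1 ≤ Q) :
    (1 / (Q : ℝ)) * ∑ c ∈ range Q, ‖Bs (fun n => ((b n : ℝ) : ℂ)) N (c / Q)‖ ^ 2 =
      ∑ a ∈ range Q, cmpC b N Q a ^ 2 := by
  rw [res_pr N Q hQ]
  apply Finset.sum_congr rfl
  intro a _
  rw [← Complex.ofReal_sum, Complex.norm_real, Real.norm_eq_abs, sq_abs]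
  rfl

/-- the squares of the sums over the residue classes -/
theorem a18b_sq (b : ℕ → ℝ) (N Q : ℕ) (L : ℝ) (hQ : 0 < Q) (hb : ∀ n ∈ Icc 1 N, 0 ≤ b n)
    (hbL : ∀ n ∈ Icc 1 N, b n ≤ L) (hL : 0 ≤ L) :
    ∑ a ∈ range Q, cmpC b N Q a ^ 2 ≤ ((N : ℝ) / Q + 1) * L * ∑ n ∈ Icc 1 N, b n := by
  rw [← cmp_part b N Q hQ, Finset.mul_sum]
  apply Finset.sum_le_sum
  intro a _
  have h0 : 0 ≤ cmpC b N Q a := by
    apply Finset.sum_nonneg
    intro n hn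
    rw [Finset.mem_filter] at hn
    exact hb n hn.1
  have h1 : cmpC b N Q a ≤ ((N : ℝ) / Q + 1) * L := by
    have h2 := cmp_cls N Q a
    have h3 : (((Icc 1 N).filter (fun n => n % Q = a)).card : ℝ) ≤ ((N / Q + 1 : ℕ) : ℝ) := by
      exact_mod_cast h2
    have h4 : ((N / Q + 1 : ℕ) : ℝ) ≤ (N : ℝ) / Q + 1 := by
      push_cast
      have : ((N / Q : ℕ) : ℝ) ≤ (N : ℝ) / Q := Nat.cast_div_le
      linarith
    calc cmpC b N Q a ≤ ∑ n ∈ (Icc 1 N).filter (fun n => n % Q = a), L := by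
          apply Finset.sum_le_sum
          intro n hn
          rw [Finset.mem_filter] at hn
          exact hbL n hn.1
      _ = (((Icc 1 N).filter (fun n => n % Q = a)).card : ℝ) * L := by
          rw [Finset.sum_const, nsmul_eq_mul]
      _ ≤ ((N : ℝ) / Q + 1) * L := mul_le_mul_of_nonneg_right (le_trans h3 h4) hL
  rw [sq]
  exact mul_le_mul_of_nonneg_right h1 h0

/-- for one modulus -/
theorem a18b_one (N Q R : ℕ) (δ : ℝ) (hδ : 0 < δ) (hQ : 1 ≤ Q) :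
    |(1 / (Q : ℝ)) * ∑ l ∈ (range Q).filter (fun l : ℕ => R < HC.den l Q), HC.Sq HC.Lam N (l / Q) -
      VP (Ps N) Q R| ≤ δ * ∑ a ∈ range Q, cmpC (aS N) N Q a ^ 2 +
        (1 + 1 / δ) * ∑ a ∈ range Q, cmpC (a18b_b N) N Q a ^ 2 := by
  have hQ0 : (0 : ℝ) < Q := by exact_mod_cast hQ
  have hi : 0 ≤ 1 / (Q : ℝ) := by positivity
  rw [VP, ← mul_sub, ← Finset.sum_sub_distrib, abs_mul, abs_of_nonneg hi]
  have h1 : |∑ l ∈ (range Q).filter (fun l : ℕ => R < HC.den l Q),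
      (HC.Sq HC.Lam N (l / Q) - ‖Ps N (l / Q)‖ ^ 2)| ≤
      ∑ l ∈ range Q, (δ * ‖Ps N (l / Q)‖ ^ 2 +
        (1 + 1 / δ) * ‖Bs (fun n => ((a18b_b N n : ℝ) : ℂ)) N (l / Q)‖ ^ 2) := by
    refine le_trans (Finset.abs_sum_le_sum_abs _ _) ?_
    refine le_trans (Finset.sum_le_sum (fun l _ => ?_))
      (Finset.sum_le_sum_of_subset_of_nonneg (Finset.filter_subset _ _) (fun l _ _ => ?_))
    · rw [HC.Sq, a18b_split]
      exact a18b_pt _ _ δ hδ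
    · positivity
  refine le_trans (mul_le_mul_of_nonneg_left h1 hi) (le_of_eq ?_)
  rw [Finset.sum_add_distrib, ← Finset.mul_sum, ← Finset.mul_sum, mul_add]
  have h2 := a18b_pars (aS N) N Q hQ
  have h3 := a18b_pars (a18b_b N) N Q hQ
  have h4 : ∀ l : ℕ, Ps N ((l : ℝ) / Q) = Bs (fun n => ((aS N n : ℝ) : ℂ)) N ((l : ℝ) / Q) :=
    fun l => rfl
  simp only [h4]
  rw [← h2, ← h3]
  ring

theorem A18bE_pr : A18bE := by
  obtain ⟨C, hC, hrem⟩ := rem_sum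
  obtain ⟨N0, hN0⟩ := cmp_final (2 / 5) (2 + 4 * C) (by norm_num)
  refine ⟨max N0 2, ?_⟩
  intro N hN Q R hQN _
  have hN2 : 2 ≤ N := le_trans (le_max_right _ _) hN
  have hfin := hN0 N (le_trans (le_max_left _ _) hN)
  obtain ⟨hρ, hS⟩ := hrem N hN2
  have hNr : (2 : ℝ) ≤ N := by exact_mod_cast hN2
  have hNp : (0 : ℝ) < N := by linarith
  have hN1 : (1 : ℝ) ≤ N := by linarith
  have hQ : 1 ≤ Q := by
    rcases Nat.eq_zero_or_pos Q with h | h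
    · rw [h] at hQN
      have : 0 < N ^ 9 := by positivity
      simp at hQN
      omega
    · exact h
  have hQ0 : (0 : ℝ) < Q := by exact_mod_cast hQ
  have hL0 : 0 ≤ Real.log N := Real.log_natCast_nonneg N
  obtain ⟨L, hLd⟩ : ∃ L, L = 1 + Real.log N := ⟨_, rfl⟩
  rw [← hLd] at hfin hS
  have hL1 : 1 ≤ L := by linarith
  have hlL : Real.log N ≤ L := by linarith
  -- `N / Q ≤ N ^ (1/10)`
  have hNQ : (N : ℝ) / Q ≤ (N : ℝ) ^ (1 / 10 : ℝ) := by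
    have h1 : ((N : ℝ) / Q) ^ 10 ≤ N := by
      rw [div_pow, div_le_iff₀ (by positivity)]
      have h2 : (N : ℝ) ^ 9 ≤ (Q : ℝ) ^ 10 := by exact_mod_cast hQN
      calc (N : ℝ) ^ 10 = N * (N : ℝ) ^ 9 := by ring
        _ ≤ N * (Q : ℝ) ^ 10 := mul_le_mul_of_nonneg_left h2 hNp.le
    have h3 : (N : ℝ) / Q = (((N : ℝ) / Q) ^ 10) ^ (1 / 10 : ℝ) := by
      rw [← Real.rpow_natCast, ← Real.rpow_mul (by positivity)]
      norm_num
    rw [h3]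
    exact Real.rpow_le_rpow (by positivity) h1 (by norm_num)
  have hT1 : (1 : ℝ) ≤ (N : ℝ) ^ (1 / 10 : ℝ) := Real.one_le_rpow hN1 (by norm_num)
  have hNQ1 : (N : ℝ) / Q + 1 ≤ 2 * (N : ℝ) ^ (1 / 10 : ℝ) := by linarith
  obtain ⟨δ, hδ⟩ : ∃ δ, δ = (N : ℝ) ^ (-(1 / 4) : ℝ) := ⟨_, rfl⟩
  have hδ0 : 0 < δ := by rw [hδ]; exact Real.rpow_pos_of_pos hNp _
  have hδ1 : 1 / δ = (N : ℝ) ^ (1 / 4 : ℝ) := by
    rw [hδ, one_div, ← Real.rpow_neg hNp.le]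
    norm_num
  have hδ2 : 1 + 1 / δ ≤ 2 * (N : ℝ) ^ (1 / 4 : ℝ) := by
    have : (1 : ℝ) ≤ (N : ℝ) ^ (1 / 4 : ℝ) := Real.one_le_rpow hN1 (by norm_num)
    rw [hδ1]
    linarith
  have hb : ∀ n ∈ Icc 1 N, 0 ≤ a18b_b N n := by
    intro n _
    have := hρ n
    rw [a18b_b]
    linarith
  have hbL : ∀ n ∈ Icc 1 N, a18b_b N n ≤ L := by
    intro n hn
    rw [Finset.mem_Icc] at hn
    have h1 : ArithmeticFunction.vonMangoldt n ≤ Real.log n :=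
      ArithmeticFunction.vonMangoldt_le_log
    have h2 : Real.log n ≤ Real.log N := by
      apply Real.log_le_log
      · exact_mod_cast hn.1
      · exact_mod_cast hn.2
    have h3 := cmp_aS_nonneg N n
    rw [a18b_b]
    linarith
  have hone := a18b_one N Q R δ hδ0 hQ
  have hA := cmp_sqA N Q hQ
  have hB := a18b_sq (a18b_b N) N Q L hQ hb hbL (by linarith)
  have hS' : ∑ n ∈ Icc 1 N, a18b_b N n ≤ C * Real.sqrt N * L ^ 2 := hS
  obtain ⟨W, hW⟩ : ∃ W, W = (N : ℝ) ^ (17 / 20 : ℝ) := ⟨_, rfl⟩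
  have hW0 : 0 < W := by rw [hW]; exact Real.rpow_pos_of_pos hNp _
  have hL23 : L ^ 2 ≤ L ^ 3 := pow_le_pow_right₀ hL1 (by norm_num)
  have hl2 : Real.log N ^ 2 ≤ L ^ 2 := pow_le_pow_left₀ hL0 hlL 2
  have t1 : δ * ∑ a ∈ range Q, cmpC (aS N) N Q a ^ 2 ≤ 2 * L ^ 3 * W := by
    have e1 : δ * ((N : ℝ) ^ (1 / 10 : ℝ) * N) = W := by
      rw [hδ, hW]
      nth_rewrite 3 [← Real.rpow_one (N : ℝ)]
      rw [← Real.rpow_add hNp, ← Real.rpow_add hNp]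
      norm_num
    calc δ * ∑ a ∈ range Q, cmpC (aS N) N Q a ^ 2
        ≤ δ * (((N : ℝ) / Q + 1) * (N * Real.log N ^ 2)) := mul_le_mul_of_nonneg_left hA hδ0.le
      _ ≤ δ * ((2 * (N : ℝ) ^ (1 / 10 : ℝ)) * (N * L ^ 3)) := by
          apply mul_le_mul_of_nonneg_left _ hδ0.le
          apply mul_le_mul hNQ1 _ (by positivity) (by positivity)
          exact mul_le_mul_of_nonneg_left (le_trans hl2 hL23) hNp.le
      _ = 2 * L ^ 3 * (δ * ((N : ℝ) ^ (1 / 10 : ℝ) * N)) := by ring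
      _ = 2 * L ^ 3 * W := by rw [e1]
  have t2 : (1 + 1 / δ) * ∑ a ∈ range Q, cmpC (a18b_b N) N Q a ^ 2 ≤ 4 * C * L ^ 3 * W := by
    have e1 : (N : ℝ) ^ (1 / 4 : ℝ) * ((N : ℝ) ^ (1 / 10 : ℝ) * Real.sqrt N) = W := by
      rw [hW, Real.sqrt_eq_rpow, ← Real.rpow_add hNp, ← Real.rpow_add hNp]
      norm_num
    have h1 : ∑ a ∈ range Q, cmpC (a18b_b N) N Q a ^ 2 ≤
        (2 * (N : ℝ) ^ (1 / 10 : ℝ)) * L * (C * Real.sqrt N * L ^ 2) := by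
      refine le_trans hB ?_
      apply mul_le_mul _ hS' (Finset.sum_nonneg hb) (by positivity)
      exact mul_le_mul_of_nonneg_right hNQ1 (by linarith)
    calc (1 + 1 / δ) * ∑ a ∈ range Q, cmpC (a18b_b N) N Q a ^ 2
        ≤ (2 * (N : ℝ) ^ (1 / 4 : ℝ)) * ((2 * (N : ℝ) ^ (1 / 10 : ℝ)) * L *
          (C * Real.sqrt N * L ^ 2)) := by
          apply mul_le_mul hδ2 h1 (Finset.sum_nonneg (fun _ _ => sq_nonneg _)) (by positivity)
      _ = 4 * C * L ^ 3 * ((N : ℝ) ^ (1 / 4 : ℝ) * ((N : ℝ) ^ (1 / 10 : ℝ) * Real.sqrt N)) := by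
          ring
      _ = 4 * C * L ^ 3 * W := by rw [e1]
  have hlog : 0 < Real.log N := Real.log_pos (by linarith)
  have hfin' : (2 + 4 * C) * L ^ 3 * W ≤ N / Real.log N := by
    have e1 : (N : ℝ) ^ (3 * (2 / 5) / 8 : ℝ) * W = N := by
      rw [hW, ← Real.rpow_add hNp]
      norm_num
    rw [le_div_iff₀ hlog]
    calc (2 + 4 * C) * L ^ 3 * W * Real.log N ≤ (2 + 4 * C) * L ^ 3 * W * L :=
          mul_le_mul_of_nonneg_left hlL (by positivity)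
      _ = (2 + 4 * C) * L ^ 4 * W := by ring
      _ ≤ (N : ℝ) ^ (3 * (2 / 5) / 8 : ℝ) * W := mul_le_mul_of_nonneg_right hfin hW0.le
      _ = N := e1
  calc _ ≤ _ := hone
    _ ≤ 2 * L ^ 3 * W + 4 * C * L ^ 3 * W := add_le_add t1 t2
    _ = (2 + 4 * C) * L ^ 3 * W := by ring
    _ ≤ N / Real.log N := hfin'

theorem A18b_pr : A18b := by
  intro η hη
  obtain ⟨N0, hN0⟩ := A18bE_pr
  have h1 := (Real.tendsto_log_atTop.comp tendsto_natCast_atTop_atTop).eventually_ge_atTop (1 / η)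
  obtain ⟨N1, hN1⟩ := Filter.eventually_atTop.1 h1
  refine ⟨max N0 N1, ?_⟩
  intro N hN Q R hQN hQ
  refine (hN0 N (le_trans (le_max_left _ _) hN) Q R hQN hQ).trans ?_
  have h2 : 1 / η ≤ Real.log N := hN1 N (le_trans (le_max_right _ _) hN)
  have h3 : 0 < 1 / η := by positivity
  have h4 : 0 < Real.log N := lt_of_lt_of_le h3 h2
  rw [div_le_iff₀ h4]
  have h5 : 1 ≤ η * Real.log N := by
    rw [div_le_iff₀ hη] at h2
    linarith
  have h6 : (0 : ℝ) ≤ N := Nat.cast_nonneg N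
  nlinarith

end Pool.Agent.FGA

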